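import Pool.Agent.V11325.TasepCase

/-!
# The most probable arrangement need not be cyclically ascending (MP_01b7fc_pr)

`n = 6`, rates `1/t = (100, 100, 1000, 20, 1, 1)`, `k = 2`, the entry `1` at position `1` and the
entry `2` at position `4`: the most probable arrangement of the large entries is `4 5 3 6`.
-/

open Finset

namespace Pool.Agent.Results.MP_01b7fc_pr.MaxNotAscending

open Pool.Agent.V11325.Tasep Pool.Agent.V11325.StatUnique

/-- inverse rates -/
noncomputable def tt : Fin 6 → ℝ := fun i => 1 / (RR i : ℝ)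

theorem RR_pos : ∀ i, 0 < RR i := by decide

theorem tt_pos (i : Fin 6) : 0 < tt i := by
  unfold tt
  have : (0 : ℝ) < (RR i : ℝ) := by exact_mod_cast RR_pos i
  positivity

theorem tt_inv (i : Fin 6) : 1 / tt i = (RR i : ℝ) := by
  unfold tt
  rw [one_div_one_div]

/-- total weight -/
noncomputable def ZZ : ℝ := ∑ w : Equiv.Perm (Fin 6), (FW w : ℝ)

/-- the stationary distribution -/
noncomputable def pi0 (w : Equiv.Perm (Fin 6)) : ℝ := (FW w : ℝ) / ZZ

theorem cert_parts (w : Equiv.Perm (Fin 6)) :
    ((List.finRange 6).map (fun i => if w (i - 1) < w i then RR (w (i - 1)) * FW (sw w i)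
      else 0)).sum =
      ((List.finRange 6).map (fun i => if w i < w (i - 1) then RR (w i) * FW w else 0)).sum ∧
    0 < FW w ∧
    (rankW w = 0 ∨ ∃ i, w i < w (i - 1) ∧ look dtab1 (rankW (sw w i)) < look dtab1 (rankW w)) ∧
    (rankW w = 0 ∨ ∃ i, w (i - 1) < w i ∧
      look dtab2 (rankW (sw w i)) < look dtab2 (rankW w)) := by
  have h := cert_perm w
  unfold cert at h
  simp only [Bool.and_eq_true, Bool.or_eq_true, beq_iff_eq, List.any_eq_true, List.mem_finRange,
    true_and, decide_eq_true_eq, Nat.blt_eq] at h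
  exact ⟨h.1.1, h.1.2, h.2.1, h.2.2⟩

theorem ZZ_pos : 0 < ZZ := by
  unfold ZZ
  refine Finset.sum_pos (fun w _ => ?_) ⟨1, mem_univ _⟩
  exact_mod_cast (cert_parts w).2.1

theorem pi0_pos (w : Equiv.Perm (Fin 6)) : 0 < pi0 w := by
  unfold pi0
  have h1 : (0 : ℝ) < (FW w : ℝ) := by exact_mod_cast (cert_parts w).2.1
  exact div_pos h1 ZZ_pos

theorem sw_coe (w : Equiv.Perm (Fin 6)) (i : Fin 6) :
    sw w i = (swapLeft w i : Fin 6 → Fin 6) := rfl

theorem stat0 (w' : Equiv.Perm (Fin 6)) : ∑ w, pi0 w * gen tt w w' = 0 := by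
  rw [sum_gen]
  have h := (cert_parts w').1
  rw [← Fin.sum_univ_def, ← Fin.sum_univ_def] at h
  have h' := congrArg (fun z : ℕ => (z : ℝ)) h
  have e1 : (∑ i, if w' (i - 1) < w' i then (1 / tt (w' (i - 1))) * pi0 (swapLeft w' i) else 0) =
      ((∑ i, (if w' (i - 1) < w' i then RR (w' (i - 1)) * FW (sw w' i) else 0) : ℕ) : ℝ) / ZZ := by
    push_cast
    rw [Finset.sum_div]
    refine Finset.sum_congr rfl fun i _ => ?_
    split_ifs
    · rw [tt_inv, sw_coe]
      unfold pi0
      ring
    · simp
  have e2 : (∑ i, if w' i < w' (i - 1) then (1 / tt (w' i)) * pi0 w' else 0) =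
      ((∑ i, (if w' i < w' (i - 1) then RR (w' i) * FW w' else 0) : ℕ) : ℝ) / ZZ := by
    push_cast
    rw [Finset.sum_div]
    refine Finset.sum_congr rfl fun i _ => ?_
    split_ifs
    · rw [tt_inv]
      unfold pi0
      ring
    · simp
  rw [e1, e2, h, sub_self]

theorem stationary0 : IsStationary tt pi0 := by
  refine ⟨fun w => (pi0_pos w).le, ?_, stat0⟩
  unfold pi0
  rw [← Finset.sum_div]
  exact div_self ZZ_pos.ne'

/-- the jump relation -/
def Rel (a b : Equiv.Perm (Fin 6)) : Prop := a ≠ b ∧ 0 < gen tt a b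

theorem to_one : ∀ (m : ℕ) (w : Equiv.Perm (Fin 6)), look dtab1 (rankW w) = m →
    Relation.ReflTransGen Rel w 1 := by
  intro m
  induction m using Nat.strong_induction_on with
  | _ m ih =>
    intro w hw
    rcases (cert_parts w).2.2.1 with h | ⟨i, hi, hlt⟩
    · rw [rank_perm w h]
    · have h1 := gen_pos tt_pos hi
      rw [sw_coe] at hlt
      exact Relation.ReflTransGen.head h1 (ih _ (by omega) (swapLeft w i) rfl)

theorem from_one : ∀ (m : ℕ) (w : Equiv.Perm (Fin 6)), look dtab2 (rankW w) = m →
    Relation.ReflTransGen Rel 1 w := by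
  intro m
  induction m using Nat.strong_induction_on with
  | _ m ih =>
    intro w hw
    rcases (cert_parts w).2.2.2 with h | ⟨i, hi, hlt⟩
    · rw [rank_perm w h]
    · have h0 : (swapLeft w i) i < (swapLeft w i) (i - 1) := by
        rw [swapLeft_self, swapLeft_left]
        exact hi
      have h1 := gen_pos tt_pos h0
      rw [swapLeft_swapLeft] at h1
      rw [sw_coe] at hlt
      exact (ih _ (by omega) (swapLeft w i) rfl).tail h1

theorem unique0 (π : Equiv.Perm (Fin 6) → ℝ) (h : IsStationary tt π) : π = pi0 := by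
  obtain ⟨c, hc⟩ := unique_stat (gen tt) pi0 pi0_pos stat0 (fun x y hxy => gen_nonneg tt_pos hxy)
    (fun x y => (to_one _ x rfl).trans (from_one _ y rfl)) π h.2.2
  have h1 : c = 1 := by
    have h2 := h.2.1
    simp only [hc] at h2
    rw [← Finset.mul_sum, stationary0.2.1, mul_one] at h2
    exact h2
  funext w
  rw [hc w, h1, one_mul]

/-- the most probable word of the event -/
def sig : Equiv.Perm (Fin 6) where
  toFun := ![0, 3, 4, 1, 2, 5]
  invFun := ![0, 3, 4, 1, 2, 5]
  left_inv := by decide
  right_inv := by decide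

/-- the positions of the small entries -/
def pos0 : Fin 6 → Fin 6 := ![0, 3, 0, 0, 0, 0]

theorem final_check : allWords (fun w => (!(w 0 == 0)) || ((!(w 3 == 1)) ||
    ((!(decide ((((List.finRange 6).map w).filter (fun a : Fin 6 => 2 ≤ (a : ℕ))).IsRotated
      (increasing 6 2)))) || Nat.blt (FW w) (FW sig)))) = true := by
  decide +kernel

/-- **The most probable arrangement of the large entries need not be cyclically ascending.** For
`n = 6` and `k = 2` there are positive `t_1, …, t_6` for which the chain has a unique stationary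
distribution `π`, and an event `E` prescribing the positions of the small entries, of positive
probability, such that some arrangement of the large entries which is not cyclically ascending is
strictly more probable, given `E`, than every cyclically ascending one. -/
theorem result : ∃ (t : Fin 6 → ℝ) (π : Equiv.Perm (Fin 6) → ℝ) (pos : Fin 6 → Fin 6)
    (σ : Equiv.Perm (Fin 6)),
    (∀ i, 0 < t i) ∧ IsStationary t π ∧ (∀ π', IsStationary t π' → π' = π) ∧
    0 < ∑ w ∈ event 2 pos, π w ∧ σ ∈ event 2 pos ∧ ¬ CycAscending 2 σ ∧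
    ∀ w ∈ event 2 pos, CycAscending 2 w → condProb π 2 pos w < condProb π 2 pos σ := by
  have hmem : sig ∈ event 2 pos0 := by
    unfold event
    rw [mem_filter]
    refine ⟨mem_univ _, ?_⟩
    decide
  have hE : 0 < ∑ w ∈ event 2 pos0, pi0 w :=
    Finset.sum_pos (fun w _ => pi0_pos w) ⟨sig, hmem⟩
  refine ⟨tt, pi0, pos0, sig, tt_pos, stationary0, unique0, hE, hmem, ?_, ?_⟩
  · unfold CycAscending
    decide +kernel
  · intro w hw hasc
    unfold event at hw
    rw [mem_filter] at hw
    have h0 : w 0 = 0 := hw.2 0 (by decide)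
    have h3 : w 3 = 1 := hw.2 1 (by decide)
    have h := of_allWords final_check w
    simp only [h0, h3, beq_self_eq_true, Bool.not_true, Bool.false_or, Bool.or_eq_true,
      Bool.not_eq_true', decide_eq_false_iff_not, Nat.blt_eq] at h
    unfold CycAscending arrangement at hasc
    have h1 : FW w < FW sig := by
      rcases h with h | h
      · exact absurd hasc h
      · exact h
    unfold condProb pi0
    apply div_lt_div_of_pos_right _ hE
    apply div_lt_div_of_pos_right _ ZZ_pos
    exact_mod_cast h1

end Pool.Agent.Results.MP_01b7fc_pr.MaxNotAscending
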